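import Pool.Agent.K4H26.RO.BC

/-!
# MP_ef066b: `S₁(Ω, Ω)` and `S₁(Ω, O^{ω-gp})`

Definitions (`Pool/Agent/K4H26/RO/Sel.lean`, `Pool/Agent/K4H26/RO/BC.lean`), for a topological space
`X` (here a set of real numbers with the subspace topology):
* `IsCov 𝒰`: the union of the family `𝒰` of subsets of `X` is `X`, and `X ∉ 𝒰`;
* `Op X`: the open covers; `Om X`: the open `ω`-covers (every finite subset of `X` is contained in
  some member);
* `OmGp X`: the open covers which are `ω`-groupable: they can be partitioned into infinitely many
  finite covers (`Multifinite`), or into finite sets `𝓕 n`, `n ∈ ℕ`, whose unions form an `ω`-cover;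
* `S1 A B`: the selection principle `S₁(A, B)`; `UfinOm X`: the property `U_fin(O, Ω)`;
* `StrongMeasureZero X`: for all `ε n > 0` there are intervals of lengths `ε n` which cover `X`;
  `BorelConjecture`: all sets of real numbers of strong measure zero are countable.

Theorem.
1. `S₁(Ω, Ω)` implies `S₁(Ω, O^{ω-gp})`, for all sets of real numbers.
2. If the continuum hypothesis holds then there is a set of real numbers which satisfies
   `S₁(Ω, O^{ω-gp})`, `S₁(O, O)` and `U_fin(O, Ω)`, and does not satisfy `S₁(Ω, Ω)`.
3. If the Borel conjecture holds then the two properties are equivalent (both of them mean that the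
   set is countable or there are no open `ω`-covers, which is the case for finite sets).

By the theorems of Gödel (CH is consistent) and Laver (the Borel conjecture is consistent) Q1 can be
neither proved nor disproved in ZFC.

Proof of 2: by recursion along a well-ordering of the reals of type `ω₁` we choose pairs `x`, `r - x`
which are generic for all the earlier dense open sets, and such that the earlier finite sets together
with `x` and `r - x` are contained in `V n (g n)` for infinitely many `n`, for all the earlier
sequences of covers `V n k`, increasing in `k`. Here `g n` is so large that `V n (g n)` meets all its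
reflections `r - V n (g n)`, `|r| ≤ n`, in the first `n` basic open sets: this is possible by
compactness, although `x` and `r - x` together are not generic over the earlier sets. The result is a
Luzin set `L` with `L + L = ℝ`. The `ω`-covers by the traces of the open sets `U` for which `U + U`
has small measure show that it does not satisfy `S₁(Ω, Ω)`.
-/

set_option autoImplicit false

namespace Pool.Agent.Results.MP_ef066b_gt.ConsistentlyDifferent

open Pool.Agent.K4H26.RO

/-- **`S₁(Ω, Ω)` and `S₁(Ω, O^{ω-gp})` differ under the continuum hypothesis and agree under the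
Borel conjecture.** -/
theorem result :
    (∀ X : Set ℝ, S1 (Om X) (Om X) → S1 (Om X) (OmGp X)) ∧
    ((Cardinal.aleph 1 : Cardinal.{0}) = Cardinal.continuum →
      ∃ X : Set ℝ, S1 (Om X) (OmGp X) ∧ S1 (Op X) (Op X) ∧ UfinOm X ∧ ¬ S1 (Om X) (Om X)) ∧
    (BorelConjecture → ∀ X : Set ℝ, S1 (Om X) (OmGp X) ↔ S1 (Om X) (Om X)) := by
  refine ⟨fun X => S1_omgp_of_S1, fun hCH => ?_, fun hBC X => ⟨fun h => ?_, S1_omgp_of_S1⟩⟩
  · obtain ⟨L, h1, h2, h3, h4⟩ := exists_luzin hCH
    have hL : IsLuz L := ⟨h1, h2, h3, h4⟩
    exact ⟨L, hL.omgp, hL.rothberger, hL.ufin, hL.not_S1⟩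
  · exact S1_of_countable (hBC X (smz_of_S1 h))

end Pool.Agent.Results.MP_ef066b_gt.ConsistentlyDifferent
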